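import Pool.Agent.Helper93.KS.St

/-!
# Project KS, module WU: the upper step of the box sieve
-/

set_option autoImplicit false

noncomputable section

namespace Pool.Agent.Helper68.KS

open Finset Filter Topology Pool.Agent.Helper93.KS
open Pool.Agent.Helper15.AB (ee Kl StDB StMT)
open Pool.Agent.Helper9.TW (gm Qs fm StMER StC9)
open Pool.Agent.Helper18.TR (StLevel)
open Pool.Agent.Helper93.KP (gk vk tk rn gn TK qk StC8P StVLP StRTS StWEI)

private theorem gm_nonneg (j : ℕ) (hj : 1 ≤ j) : 0 ≤ gm j := by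
  unfold gm
  apply Real.log_nonneg
  have : (0 : ℝ) < j := by exact_mod_cast hj
  rw [le_div_iff₀ this]
  linarith

private theorem gm_third (j : ℕ) (hj : 3 ≤ j) : gm j ≤ 1 / 3 := by
  unfold gm
  have h3 : (3 : ℝ) ≤ j := by exact_mod_cast hj
  have hpos : (0 : ℝ) < j := by linarith
  have h1 : 0 < ((j : ℝ) + 1) / j := by positivity
  have h2 := Real.log_le_sub_one_of_pos h1
  have h4 : ((j : ℝ) + 1) / j - 1 = 1 / j := by
    field_simp
    ring
  rw [h4] at h2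
  refine h2.trans ?_
  exact one_div_le_one_div_of_le (by norm_num) h3

private theorem kg_le (κ j : ℕ) (hκ : κ ≤ 2) (hj : 3 ≤ j) : (κ : ℝ) * gm j ≤ 2 / 3 := by
  have h1 : (κ : ℝ) ≤ 2 := by exact_mod_cast hκ
  have h2 := gm_third j hj
  have h3 := gm_nonneg j (by omega)
  nlinarith

private theorem kg_nonneg (κ j : ℕ) (hj : 3 ≤ j) : 0 ≤ (κ : ℝ) * gm j :=
  mul_nonneg (Nat.cast_nonneg _) (gm_nonneg j (by omega))

private theorem Pq_succ (a : ℕ) (ω : ℝ) (j0 j : ℕ) (hj : j0 ≤ j) (p : ℕ) :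
    p ∈ Pq a ω j0 (j + 1) ↔ p ∈ Pq a ω j0 j ∨ p ∈ bq a ω j := by
  simp only [Pq, Finset.mem_biUnion, Finset.mem_Ico]
  constructor
  · rintro ⟨i, ⟨h1, h2⟩, h3⟩
    rcases Nat.lt_or_ge i j with h | h
    · exact Or.inl ⟨i, ⟨h1, h⟩, h3⟩
    · have : i = j := by omega
      subst this
      exact Or.inr h3
  · rintro (⟨i, ⟨h1, h2⟩, h3⟩ | h)
    · exact ⟨i, ⟨h1, by omega⟩, h3⟩
    · exact ⟨j, ⟨hj, by omega⟩, h⟩

private theorem SW_succ (a : ℕ) (ω : ℝ) (j0 j : ℕ) (hj : j0 ≤ j) (x B : ℝ) (lam : ℕ → ℝ)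
    (h : SW a ω j0 j x B lam) : SW a ω j0 (j + 1) x B lam := by
  intro q
  refine ⟨(h q).1, fun hq => ?_⟩
  obtain ⟨h1, h2, h3⟩ := (h q).2 hq
  exact ⟨h1, fun p hp hd => (Pq_succ a ω j0 j hj p).2 (Or.inl (h2 p hp hd)), h3⟩

private theorem SW_comb (a : ℕ) (ω : ℝ) (j0 j : ℕ) (x B₁ B₂ B₃ : ℝ) (l₁ l₂ l₃ : ℕ → ℝ)
    (h1 : SW a ω j0 j x B₁ l₁) (h2 : SW a ω j0 j x B₂ l₂) (h3 : SW a ω j0 j x B₃ l₃) :
    SW a ω j0 j x (B₁ + B₂ + B₃) (fun q => l₁ q - l₂ q + l₃ q) := by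
  intro q
  constructor
  · have e1 := abs_le.1 (h1 q).1
    have e2 := abs_le.1 (h2 q).1
    have e3 := abs_le.1 (h3 q).1
    refine abs_le.2 ⟨?_, ?_⟩ <;> dsimp only <;> linarith [e1.1, e1.2, e2.1, e2.2, e3.1, e3.2]
  · intro hq
    by_cases k1 : l₁ q = 0
    · by_cases k2 : l₂ q = 0
      · by_cases k3 : l₃ q = 0
        · exfalso
          apply hq
          dsimp only
          rw [k1, k2, k3]
          ring
        · exact (h3 q).2 k3
      · exact (h2 q).2 k2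
    · exact (h1 q).2 k1

private theorem idq_01 (a : ℕ) (ω : ℝ) (j0 j m : ℕ) : idq a ω j0 j m = 0 ∨ idq a ω j0 j m = 1 := by
  unfold idq
  split_ifs
  · exact Or.inl rfl
  · exact Or.inr rfl

private theorem idq_succ (a : ℕ) (ω : ℝ) (j0 j m : ℕ) (hj : j0 ≤ j) :
    (ejq a ω j m = 0 → idq a ω j0 (j + 1) m = idq a ω j0 j m) ∧
    (ejq a ω j m ≠ 0 → idq a ω j0 (j + 1) m = 0) := by
  constructor
  · intro he
    have hno : ∀ p ∈ bq a ω j, ¬ p ∣ m := by
      intro p hp hd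
      unfold ejq at he
      rw [Finset.card_eq_zero] at he
      have : p ∈ (bq a ω j).filter (fun p => p ∣ m) := Finset.mem_filter.2 ⟨hp, hd⟩
      rw [he] at this
      exact absurd this (Finset.notMem_empty _)
    have hiff : (∃ p ∈ Pq a ω j0 (j + 1), p ∣ m) ↔ ∃ p ∈ Pq a ω j0 j, p ∣ m := by
      constructor
      · rintro ⟨p, hp, hd⟩
        rcases (Pq_succ a ω j0 j hj p).1 hp with h | h
        · exact ⟨p, h, hd⟩
        · exact absurd hd (hno p h)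
      · rintro ⟨p, hp, hd⟩
        exact ⟨p, (Pq_succ a ω j0 j hj p).2 (Or.inl hp), hd⟩
    unfold idq
    by_cases h : ∃ p ∈ Pq a ω j0 j, p ∣ m
    · rw [if_pos h, if_pos (hiff.2 h)]
    · rw [if_neg h, if_neg (fun k => h (hiff.1 k))]
  · intro he
    unfold ejq at he
    obtain ⟨p, hp⟩ := Finset.card_ne_zero.1 he
    rw [Finset.mem_filter] at hp
    unfold idq
    rw [if_pos]
    exact ⟨p, (Pq_succ a ω j0 j hj p).2 (Or.inr hp.1), hp.2⟩

private theorem key_div (I S₁ S₂ J : ℝ) (e : ℕ) (hI : I = 0 ∨ I = 1) (h1 : I ≤ S₁) (h2 : S₂ ≤ I)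
    (hJ0 : e = 0 → J = I) (hJ1 : e ≠ 0 → J = 0) :
    J ≤ S₁ - (e : ℝ) * S₂ + (e : ℝ) * ((e : ℝ) - 1) / 2 := by
  rcases Nat.eq_zero_or_pos e with he | he
  · subst he
    rw [hJ0 rfl]
    simpa using h1
  · rw [hJ1 he.ne']
    have he1 : (1 : ℝ) ≤ e := by exact_mod_cast he
    have h3 : (e : ℝ) * S₂ ≤ e * I := mul_le_mul_of_nonneg_left h2 (by linarith)
    have h4 : 0 ≤ ((e : ℝ) - 1) * ((e : ℝ) - 2) := by
      rcases Nat.lt_or_ge e 2 with h | h
      · have : e = 1 := by omega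
        subst this
        norm_num
      · have : (2 : ℝ) ≤ e := by exact_mod_cast h
        exact mul_nonneg (by linarith) (by linarith)
    rcases hI with hI | hI
    · subst hI
      nlinarith [mul_nonneg (by linarith : (0 : ℝ) ≤ e) (by linarith : (0 : ℝ) ≤ (e : ℝ) - 1)]
    · subst hI
      nlinarith

private theorem mg_comb (a : ℕ) (g l₁ l₂ l₃ : ℕ → ℝ) :
    mg a g (fun q => l₁ q - l₂ q + l₃ q) = mg a g l₁ - mg a g l₂ + mg a g l₃ := by
  unfold mg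
  rw [← Finset.sum_sub_distrib, ← Finset.sum_add_distrib]
  exact Finset.sum_congr rfl (fun q _ => by ring)

private theorem VV_pos (κ j0 j : ℕ) (hκ : κ ≤ 2) (hj0 : 3 ≤ j0) : 0 < VV κ j0 j := by
  unfold VV
  refine Finset.prod_pos fun i hi => ?_
  rw [Finset.mem_Ico] at hi
  have := kg_le κ i hκ (by omega)
  linarith

/-- the real inequality behind the main term -/
private theorem real_step (c W u l ε : ℝ) (hc0 : 0 ≤ c) (hc1 : c ≤ 2 / 3) (hW : 0 < W) (hu : 0 ≤ u) (hl : 0 ≤ l)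
    (hε : 0 < ε) : ∃ t : ℝ, 0 < t ∧ t ≤ 1 / 6 ∧ t < W ∧ ∀ G V : ℝ, 0 ≤ G → G ≤ c + t → W - t ≤ V →
      (1 + u + t) * V - G * ((1 - l - t) * V) + G ^ 2 / 2 ≤
        (1 + (u + c * l + c ^ 2 / (2 * W)) / (1 - c) + ε) * (V * (1 - G)) := by
  set E : ℝ := (u + c * l + c ^ 2 / (2 * W)) / (1 - c) with hE
  have hc2 : 0 < 1 - c := by linarith
  have hE0 : 0 ≤ E := by
    rw [hE]
    apply div_nonneg _ hc2.le
    have : 0 ≤ c * l := mul_nonneg hc0 hl
    have : 0 ≤ c ^ 2 / (2 * W) := by positivity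
    linarith
  have hEc : E * (1 - c) = u + c * l + c ^ 2 / (2 * W) := by
    rw [hE, div_mul_cancel₀ _ hc2.ne']
  let F : ℝ → ℝ := fun t => (E + ε) * (1 - c - t) - (u + t + (c + t) * (l + t) + (c + t) ^ 2 / (2 * (W - t)))
  have hF0 : 0 < F 0 := by
    have : F 0 = ε * (1 - c) := by
      simp only [F]
      have h1 : (E + ε) * (1 - c - 0) = E * (1 - c) + ε * (1 - c) := by ring
      rw [h1, hEc]
      ring
    rw [this]
    exact mul_pos hε hc2
  have hFc : ContinuousAt F 0 := by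
    have hne : (2 * (W - 0)) ≠ 0 := by
      have := hW.ne'
      simpa using this
    refine ContinuousAt.sub (by fun_prop) ?_
    refine ContinuousAt.add (by fun_prop) ?_
    exact ContinuousAt.div (by fun_prop) (by fun_prop) hne
  have hev : ∀ᶠ t in 𝓝 (0 : ℝ), 0 < F t := hFc.eventually (lt_mem_nhds hF0)
  obtain ⟨r, hr, hr2⟩ := Metric.eventually_nhds_iff.1 hev
  set t : ℝ := min (r / 2) (min (1 / 6) (W / 2)) with ht
  have ht0 : 0 < t := by
    rw [ht]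
    refine lt_min (by linarith) (lt_min (by norm_num) (by linarith))
  have ht1 : t ≤ r / 2 := min_le_left _ _
  have ht2 : t ≤ 1 / 6 := (min_le_right _ _).trans (min_le_left _ _)
  have ht3 : t ≤ W / 2 := (min_le_right _ _).trans (min_le_right _ _)
  have htW : t < W := by linarith
  refine ⟨t, ht0, ht2, htW, ?_⟩
  intro G V hG0 hG1 hV
  have hFt : 0 < F t := by
    apply hr2
    rw [Real.dist_eq, sub_zero, abs_of_pos ht0]
    linarith
  have hWt : 0 < W - t := by linarith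
  have hVpos : 0 < V := lt_of_lt_of_le hWt hV
  simp only [F] at hFt
  -- divide by V
  have h1 : G ^ 2 / 2 ≤ V * ((c + t) ^ 2 / (2 * (W - t))) := by
    have e1 : G ^ 2 ≤ (c + t) ^ 2 := by
      apply pow_le_pow_left₀ hG0 hG1
    have e2 : (W - t) * ((c + t) ^ 2 / (2 * (W - t))) = (c + t) ^ 2 / 2 := by
      field_simp
    have e3 : (W - t) * ((c + t) ^ 2 / (2 * (W - t))) ≤ V * ((c + t) ^ 2 / (2 * (W - t))) :=
      mul_le_mul_of_nonneg_right hV (by positivity)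
    linarith
  have h2 : V * (G * (l + t)) ≤ V * ((c + t) * (l + t)) := by
    apply mul_le_mul_of_nonneg_left _ hVpos.le
    exact mul_le_mul_of_nonneg_right hG1 (by linarith)
  have h3 : V * ((E + ε) * (1 - c - t)) ≤ V * ((E + ε) * (1 - G)) := by
    apply mul_le_mul_of_nonneg_left _ hVpos.le
    apply mul_le_mul_of_nonneg_left _ (by linarith)
    linarith
  have h4 : V * (u + t + (c + t) * (l + t) + (c + t) ^ 2 / (2 * (W - t))) ≤ V * ((E + ε) * (1 - c - t)) := by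
    apply mul_le_mul_of_nonneg_left _ hVpos.le
    linarith
  have h5 : (1 + u + t) * V - G * ((1 - l - t) * V) + G ^ 2 / 2 =
      V * (1 - G) + V * (u + t) + V * (G * (l + t)) + G ^ 2 / 2 := by ring
  have h6 : (1 + E + ε) * (V * (1 - G)) = V * (1 - G) + V * ((E + ε) * (1 - G)) := by ring
  rw [h5, h6]
  have h7 : V * (u + t + (c + t) * (l + t) + (c + t) ^ 2 / (2 * (W - t))) =
      V * (u + t) + V * ((c + t) * (l + t)) + V * ((c + t) ^ 2 / (2 * (W - t))) := by ring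
  rw [h7] at h4
  linarith

private theorem prod_near (κ j0 j : ℕ) (t : ℝ) (ht : 0 < t) :
    ∃ η : ℝ, 0 < η ∧ ∀ η' : ℝ, 0 ≤ η' → η' ≤ η →
      VV κ j0 j - t ≤ ∏ i ∈ Ico j0 j, (1 - (κ : ℝ) * gm i - η') := by
  have hc : Continuous (fun η : ℝ => ∏ i ∈ Ico j0 j, (1 - (κ : ℝ) * gm i - η)) :=
    continuous_finsetProd _ (fun i _ => by fun_prop)
  have h0 : VV κ j0 j - t < ∏ i ∈ Ico j0 j, (1 - (κ : ℝ) * gm i - 0) := by
    have : ∏ i ∈ Ico j0 j, (1 - (κ : ℝ) * gm i - 0) = VV κ j0 j := by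
      unfold VV
      exact Finset.prod_congr rfl (fun i _ => by ring)
    rw [this]
    linarith
  have hev := hc.continuousAt.eventually (lt_mem_nhds h0)
  obtain ⟨r, hr, hr2⟩ := Metric.eventually_nhds_iff.1 hev
  refine ⟨r / 2, by linarith, fun η' h1 h2 => (hr2 ?_).le⟩
  rw [Real.dist_eq, sub_zero, abs_of_nonneg h1]
  linarith

theorem hWU (hB : StBMQ) (hP : StPRQ) : StWU := by
  intro κ ω j0 N j u l hκ hω hj0 hj hN hNω hu hl hUQ hLQ
  obtain ⟨B₁, L₁, hB₁, s1, d1, m1⟩ := hUQ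
  obtain ⟨B₂, L₂, hB₂, s2, d2, m2⟩ := hLQ
  have hcast : (((N - (j + 1) : ℕ) : ℝ)) = (N : ℝ) - ((j : ℝ) + 1) := by
    rw [Nat.cast_sub (by omega)]
    push_cast
    ring
  have hx0 : 0 ≤ (((N - (j + 1) : ℕ) : ℝ)) * ω := by positivity
  have hlev : (((N - (j + 1) : ℕ) : ℝ)) * ω + ((j : ℝ) + 1) * ω = (N : ℝ) * ω := by
    rw [hcast]
    ring
  have h3N : 3 * ((j : ℝ) + 1) ≤ N := by exact_mod_cast hN
  have hpr : 2 * (((j : ℝ) + 1) * ω) ≤ (N : ℝ) * ω := by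
    have : 2 * ((j : ℝ) + 1) ≤ N := by
      have : (0 : ℝ) ≤ j := Nat.cast_nonneg _
      linarith
    calc 2 * (((j : ℝ) + 1) * ω) = (2 * ((j : ℝ) + 1)) * ω := by ring
      _ ≤ N * ω := mul_le_mul_of_nonneg_right this hω.le
  -- facts for a single a
  have hbm : ∀ a : ℕ, 2 ≤ a → SW a ω j0 j (((N - (j + 1) : ℕ) : ℝ) * ω) B₂ (L₂ a) → ∀ g : ℕ → ℝ,
      SW a ω j0 (j + 1) ((N : ℝ) * ω) B₂ (bmq a ω j (L₂ a)) ∧
      mg a g (bmq a ω j (L₂ a)) = Gb a ω g j * mg a g (L₂ a) ∧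
      ∀ m : ℕ, 1 ≤ m → ∑ q ∈ m.divisors, bmq a ω j (L₂ a) q = (ejq a ω j m : ℝ) * ∑ q ∈ m.divisors, L₂ a q := by
    intro a ha hs g
    have := hB a j0 j j ω _ B₂ (L₂ a) g ha hω hB₂ hx0 hj le_rfl (by rw [hlev]; exact hNω) hs
    rwa [hlev] at this
  refine ⟨B₁ + B₂ + 1, fun a q => L₁ a q - bmq a ω j (L₂ a) q + prq a ω j q, by positivity, ?_, ?_, ?_⟩
  · filter_upwards [s1, s2, eventually_ge_atTop 2] with a h1 h2 ha
    have k2 := (hbm a ha h2 (fun _ => 0)).1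
    have k3 := (hP a j0 j ω ((N : ℝ) * ω) (fun _ => 0) ha hω hj hpr hNω (fun _ => le_rfl)).1
    exact SW_comb a ω j0 (j + 1) _ B₁ B₂ 1 _ _ _ (SW_succ a ω j0 j hj _ _ _ h1) k2 k3
  · filter_upwards [d1, d2, s2, eventually_ge_atTop 2] with a h1 h2 hs ha m hm
    have k2 := (hbm a ha hs (fun _ => 0)).2.2 m hm
    have k3 := (hP a j0 j ω ((N : ℝ) * ω) (fun _ => 0) ha hω hj hpr hNω (fun _ => le_rfl)).2.2 m hm
    have e : ∑ q ∈ m.divisors, (L₁ a q - bmq a ω j (L₂ a) q + prq a ω j q) =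
        ∑ q ∈ m.divisors, L₁ a q - (ejq a ω j m : ℝ) * ∑ q ∈ m.divisors, L₂ a q +
          (ejq a ω j m : ℝ) * ((ejq a ω j m : ℝ) - 1) / 2 := by
      rw [Finset.sum_add_distrib, Finset.sum_sub_distrib, k2, k3]
    rw [e]
    exact key_div (idq a ω j0 j m) _ _ _ _ (idq_01 a ω j0 j m) (h1 m hm) (h2 m hm)
      (idq_succ a ω j0 j m hj).1 (idq_succ a ω j0 j m hj).2
  · intro ε hε
    have hj3 : 3 ≤ j := le_trans hj0 hj
    obtain ⟨t, ht0, ht1, htW, hkey⟩ := real_step ((κ : ℝ) * gm j) (VV κ j0 j) u l ε (kg_nonneg κ j hj3)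
      (kg_le κ j hκ hj3) (VV_pos κ j0 j hκ hj0) hu hl hε
    obtain ⟨η₁, hη₁, ev1⟩ := m1 t ht0
    obtain ⟨η₂, hη₂, ev2⟩ := m2 t ht0
    obtain ⟨η₃, hη₃, hprod⟩ := prod_near κ j0 j t ht0
    set η : ℝ := min (min η₁ η₂) (min η₃ t) with hη
    have hηpos : 0 < η := lt_min (lt_min hη₁ hη₂) (lt_min hη₃ ht0)
    have e1 : η ≤ η₁ := (min_le_left _ _).trans (min_le_left _ _)
    have e2 : η ≤ η₂ := (min_le_left _ _).trans (min_le_right _ _)
    have e3 : η ≤ η₃ := (min_le_right _ _).trans (min_le_left _ _)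
    have e4 : η ≤ t := (min_le_right _ _).trans (min_le_right _ _)
    refine ⟨η, hηpos, ?_⟩
    filter_upwards [ev1, ev2, s2, eventually_ge_atTop 2] with a h1 h2 hs ha g hg
    obtain ⟨hg0, hgA⟩ := hg
    have hA1 : AD κ a ω η₁ j0 j g := ⟨hg0, fun i hi => (hgA i (by
      rw [Finset.mem_Ico] at hi ⊢
      omega)).trans (by linarith)⟩
    have hA2 : AD κ a ω η₂ j0 j g := ⟨hg0, fun i hi => (hgA i (by
      rw [Finset.mem_Ico] at hi ⊢
      omega)).trans (by linarith)⟩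
    have k1 := h1 g hA1
    have k2 := h2 g hA2
    obtain ⟨-, k3, -⟩ := hbm a ha hs g
    have k4 := (hP a j0 j ω ((N : ℝ) * ω) g ha hω hj hpr hNω hg0).2.1
    have hG0 : 0 ≤ Gb a ω g j := Finset.sum_nonneg fun p _ => hg0 p
    have hG1 : Gb a ω g j ≤ (κ : ℝ) * gm j + t := (hgA j (by rw [Finset.mem_Ico]; omega)).trans (by linarith)
    have hV : VV κ j0 j - t ≤ Vq a ω g j0 j := by
      refine (hprod η hηpos.le e3).trans ?_
      unfold Vq
      refine Finset.prod_le_prod (fun i hi => ?_) (fun i hi => ?_)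
      · rw [Finset.mem_Ico] at hi
        have := kg_le κ i hκ (by omega)
        linarith
      · have hi' : i ∈ Ico j0 (j + 1) := by
          rw [Finset.mem_Ico] at hi ⊢
          omega
        have := hgA i hi'
        linarith
    have hVq : Vq a ω g j0 (j + 1) = Vq a ω g j0 j * (1 - Gb a ω g j) := by
      unfold Vq
      rw [Finset.prod_Ico_succ_top hj]
    rw [mg_comb, k3, hVq]
    have k5 := hkey (Gb a ω g j) (Vq a ω g j0 j) hG0 hG1 hV
    have k6 : Gb a ω g j * ((1 - l - t) * Vq a ω g j0 j) ≤ Gb a ω g j * mg a g (L₂ a) :=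
      mul_le_mul_of_nonneg_left k2 hG0
    linarith

end Pool.Agent.Helper68.KS
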